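import Pool.Agent.Helper38.Curl.Rep

/-!
MP_9cc3a3_an, packet C-WK: weak limits.
-/

open MeasureTheory Set Filter Topology Metric
open scoped ContDiff RealInnerProductSpace
open Pool.Agent.Helper38.Curl

namespace Pool.Agent.Helper89.Curl

theorem wk_sqOn_le {v : ℕ → E → E} {V : E → E} (hw : WkTo v V) (hv : ∀ n, MemLp (v n) 2)
    {S : Set E} (hS : MeasurableSet S) (hSb : Bornology.IsBounded S)
    (hV : MemLp V 2 (volume.restrict S)) {C : ℝ} (hC : ∀ᶠ n in atTop, sqOn S (v n) ≤ C) :
    sqOn S V ≤ C := by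
  obtain ⟨R, hR⟩ := hSb.subset_closedBall (0 : E)
  have hφ : MemLp (S.indicator V) 2 := memLp_ind hS hV
  have hvan : VanOff (closedBall 0 R) (S.indicator V) := (vanOff_ind S V).mono hR
  have h1 := hw _ hφ ⟨R, hvan⟩
  have h2 : ip V (S.indicator V) = sqOn S V := by
    rw [ip_eq_setIntegral hS (vanOff_ind S V)]
    unfold sqOn
    apply setIntegral_congr_fun hS
    intro x hx
    simp only [indicator_of_mem hx, real_inner_self_eq_norm_sq]
  rw [h2] at h1
  have h3 : ∀ᶠ n in atTop, ip (v n) (S.indicator V) ≤ √C * √(sqOn S V) := by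
    filter_upwards [hC] with n hn
    refine (le_abs_self _).trans ((abs_ip_le_sqOn hS ((hv n).restrict _) hφ
      (vanOff_ind S V)).trans ?_)
    rw [← sqOn_eq_sq hS]
    exact mul_le_mul_of_nonneg_right (Real.sqrt_le_sqrt hn) (Real.sqrt_nonneg _)
  have h4 : sqOn S V ≤ √C * √(sqOn S V) := le_of_tendsto h1 h3
  obtain ⟨n, hn⟩ := hC.exists
  have hC0 : 0 ≤ C := (sqOn_nonneg S (v n)).trans hn
  rcases (sqOn_nonneg S V).eq_or_lt with h0 | h0
  · rw [← h0]
    exact hC0
  · have h5 : √(sqOn S V) * √(sqOn S V) ≤ √C * √(sqOn S V) := by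
      rw [Real.mul_self_sqrt h0.le]
      exact h4
    have h6 := le_of_mul_le_mul_right h5 (Real.sqrt_pos.2 h0)
    exact (Real.sqrt_le_sqrt_iff hC0).1 h6

/-! ### the kernel -/

theorem kap0_nonneg (y : E) : 0 ≤ kap0 y := expNegInvGlue.nonneg _

theorem kap0_le (y : E) : kap0 y ≤ 1 := by
  unfold kap0 expNegInvGlue
  split_ifs with h
  · exact zero_le_one
  · rw [Real.exp_le_one_iff, neg_nonpos, inv_nonneg]
    exact (not_le.1 h).le

theorem kap0_zero {y : E} (hy : 1 ≤ ‖y‖) : kap0 y = 0 := by
  unfold kap0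
  apply expNegInvGlue.zero_of_nonpos
  nlinarith

theorem continuous_kap0 : Continuous kap0 := by
  unfold kap0
  exact (expNegInvGlue.contDiff (n := 0)).continuous.comp
    (continuous_const.sub (continuous_norm.pow 2))

theorem kap_zero {r : ℝ} (hr : 0 < r) {y : E} (hy : r ≤ ‖y‖) : kap r y = 0 := by
  unfold kap
  rw [kap0_zero, mul_zero]
  rw [norm_smul, norm_inv, Real.norm_of_nonneg hr.le, le_inv_mul_iff₀ hr, mul_one]
  exact hy

theorem continuous_kap (r : ℝ) : Continuous (kap r) := by
  unfold kap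
  exact continuous_const.mul (continuous_kap0.comp (continuous_const_smul _))

theorem abs_kap_le {r : ℝ} (hr : 0 < r) (y : E) :
    |kap r y| ≤ |(∫ z, kap0 z)⁻¹| * (r ^ 3)⁻¹ := by
  unfold kap
  rw [abs_mul, abs_mul]
  have h1 : |kap0 (r⁻¹ • y)| ≤ 1 := by
    rw [abs_of_nonneg (kap0_nonneg _)]
    exact kap0_le _
  have h2 : |(r ^ 3)⁻¹| = (r ^ 3)⁻¹ := abs_of_pos (by positivity)
  rw [h2]
  calc |(∫ z, kap0 z)⁻¹| * (r ^ 3)⁻¹ * |kap0 (r⁻¹ • y)|
      ≤ |(∫ z, kap0 z)⁻¹| * (r ^ 3)⁻¹ * 1 := by
        apply mul_le_mul_of_nonneg_left h1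
        positivity
    _ = _ := mul_one _

theorem tendsto_kap {r : ℕ → ℝ} {r' : ℝ} (hr' : 0 < r') (hr : Tendsto r atTop (𝓝 r'))
    {z : ℕ → E} {z' : E} (hz : Tendsto z atTop (𝓝 z')) :
    Tendsto (fun n => kap (r n) (z n)) atTop (𝓝 (kap r' z')) := by
  unfold kap
  apply Tendsto.mul
  · apply Tendsto.mul tendsto_const_nhds
    exact (hr.pow 3).inv₀ (by positivity)
  · exact (continuous_kap0.tendsto _).comp ((hr.inv₀ hr'.ne').smul hz)

/-- The test field of a component of the mollification. -/
noncomputable def ph (r : ℝ) (z : E) (i : Fin 3) (y : E) : E := kap r (z - y) • bv i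

theorem ph_zero {r : ℝ} (hr : 0 < r) {z y : E} {i : Fin 3} {R : ℝ} (hR : r + ‖z‖ ≤ R)
    (hy : y ∉ ball (0 : E) R) : ph r z i y = 0 := by
  unfold ph
  rw [kap_zero hr, zero_smul]
  rw [mem_ball_zero_iff, not_lt] at hy
  have := norm_sub_norm_le y z
  rw [norm_sub_rev]
  linarith

theorem continuous_kapz (r : ℝ) (z : E) : Continuous (fun y => kap r (z - y)) :=
  (continuous_kap r).comp (continuous_const.sub continuous_id)

theorem compact_kapz {r : ℝ} (hr : 0 < r) (z : E) : HasCompactSupport (fun y => kap r (z - y)) := by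
  apply HasCompactSupport.intro (isCompact_closedBall (0 : E) (r + ‖z‖))
  intro y hy
  apply kap_zero hr
  rw [mem_closedBall_zero_iff, not_le] at hy
  have := norm_sub_norm_le y z
  rw [norm_sub_rev]
  linarith

theorem memLp_ph {r : ℝ} (hr : 0 < r) (z : E) (i : Fin 3) : MemLp (ph r z i) 2 := by
  apply Continuous.memLp_of_hasCompactSupport
  · exact (continuous_kapz r z).smul continuous_const
  · exact (compact_kapz hr z).smul_right

theorem mol_comp {r : ℝ} (hr : 0 < r) {v : E → E} (hv : LocallyIntegrable v) (z : E) (i : Fin 3) :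
    mol r v z i = ip v (ph r z i) := by
  have hint : Integrable (fun y => kap r (z - y) • v y) :=
    hv.integrable_smul_left_of_hasCompactSupport (continuous_kapz r z) (compact_kapz hr z)
  have h1 := ContinuousLinearMap.integral_comp_comm (EuclideanSpace.proj (𝕜 := ℝ) i) hint
  unfold mol ip
  have h2 : (∫ y, kap r (z - y) • v y) i =
      (EuclideanSpace.proj (𝕜 := ℝ) i) (∫ y, kap r (z - y) • v y) := rfl
  rw [h2, ← h1]
  congr 1
  ext y
  unfold ph
  rw [real_inner_smul_right]
  have h3 : ⟪v y, bv i⟫ = v y i := by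
    unfold bv
    rw [EuclideanSpace.inner_single_right]
    simp
  rw [h3]
  simp

theorem locInt {V : E → E} (hV : ∀ R, MemLp V 2 (volume.restrict (ball 0 R))) :
    LocallyIntegrable V := by
  intro x
  refine ⟨ball 0 (‖x‖ + 1), isOpen_ball.mem_nhds (by rw [mem_ball_zero_iff]; linarith), ?_⟩
  have : IsFiniteMeasure (volume.restrict (ball (0 : E) (‖x‖ + 1))) :=
    ⟨by rw [Measure.restrict_apply_univ]; exact measure_ball_lt_top⟩
  exact (hV _).integrable (by norm_num)

theorem wk_mol {v : ℕ → E → E} {V : E → E} (hw : WkTo v V) (hv : ∀ n, MemLp (v n) 2)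
    (hV : ∀ R, MemLp V 2 (volume.restrict (ball 0 R)))
    (hb : ∀ R, ∃ C, ∀ᶠ n in atTop, sqOn (ball 0 R) (v n) ≤ C) {r : ℕ → ℝ} {r' : ℝ} (hr' : 0 < r')
    (hr : Tendsto r atTop (𝓝 r')) {z : ℕ → E} {z' : E} (hz : Tendsto z atTop (𝓝 z')) :
    Tendsto (fun n => mol (r n) (v n) (z n)) atTop (𝓝 (mol r' V z')) := by
  have key : ∀ i : Fin 3, Tendsto (fun n => mol (r n) (v n) (z n) i) atTop
      (𝓝 (mol r' V z' i)) := by
    intro i
    set R : ℝ := (r' + 1) + (‖z'‖ + 1) with hR
    have er : ∀ᶠ n in atTop, r' / 2 < r n ∧ r n < r' + 1 :=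
      (hr.eventually (lt_mem_nhds (by linarith))).and
        (hr.eventually (gt_mem_nhds (by linarith)))
    have ez : ∀ᶠ n in atTop, ‖z n‖ < ‖z'‖ + 1 :=
      (hz.norm).eventually (gt_mem_nhds (by linarith))
    have hφ := memLp_ph hr' z' i
    have hvanφ : ∀ y, y ∉ ball (0 : E) R → ph r' z' i y = 0 := fun y hy =>
      ph_zero hr' (by rw [hR]; linarith) hy
    have h1 : Tendsto (fun n => ip (v n) (ph r' z' i)) atTop (𝓝 (ip V (ph r' z' i))) :=
      hw _ hφ ⟨R, Eventually.of_forall fun y hy => hvanφ y fun h => hy (ball_subset_closedBall h)⟩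
    -- the difference of the test fields
    have h2 : Tendsto (fun n => Pool.Agent.Helper38.Curl.sq (fun y => ph (r n) (z n) i y - ph r' z' i y)) atTop
        (𝓝 0) := by
      have h0 : (0 : ℝ) = ∫ _ : E, (0 : ℝ) := by simp
      rw [h0]
      unfold Pool.Agent.Helper38.Curl.sq
      set K : ℝ := |(∫ z, kap0 z)⁻¹| * ((r' / 2) ^ 3)⁻¹ + |(∫ z, kap0 z)⁻¹| * (r' ^ 3)⁻¹ with hK
      apply tendsto_integral_filter_of_dominated_convergence
        ((ball (0 : E) R).indicator fun _ => K ^ 2)
      · apply Eventually.of_forall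
        intro n
        apply Continuous.aestronglyMeasurable
        exact (((continuous_kapz (r n) (z n)).smul continuous_const).sub
          ((continuous_kapz r' z').smul continuous_const)).norm.pow 2
      · filter_upwards [er, ez] with n hn1 hn2
        have hrn : 0 < r n := by linarith [hn1.1]
        apply Eventually.of_forall
        intro y
        by_cases hy : y ∈ ball (0 : E) R
        · rw [indicator_of_mem hy, norm_pow, norm_norm]
          apply pow_le_pow_left₀ (norm_nonneg _)
          unfold ph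
          rw [← sub_smul, norm_smul]
          have hbv : ‖(bv i : E)‖ = 1 := by unfold bv; simp
          rw [hbv, mul_one, Real.norm_eq_abs]
          refine (abs_sub _ _).trans ?_
          rw [hK]
          apply add_le_add _ (abs_kap_le hr' _)
          refine (abs_kap_le hrn _).trans ?_
          apply mul_le_mul_of_nonneg_left _ (abs_nonneg _)
          apply inv_anti₀ (by positivity)
          exact pow_le_pow_left₀ (by positivity) hn1.1.le 3
        · rw [indicator_of_notMem hy, hvanφ y hy, ph_zero hrn (by rw [hR]; linarith [hn1.2]) hy]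
          simp
      · rw [integrable_indicator_iff measurableSet_ball]
        exact integrableOn_const measure_ball_lt_top.ne
      · apply Eventually.of_forall
        intro y
        have h3 : Tendsto (fun n => ph (r n) (z n) i y - ph r' z' i y) atTop (𝓝 0) := by
          have h4 : Tendsto (fun n => ph (r n) (z n) i y) atTop (𝓝 (ph r' z' i y)) :=
            (tendsto_kap hr' hr (hz.sub tendsto_const_nhds)).smul tendsto_const_nhds
          have := h4.sub (tendsto_const_nhds (x := ph r' z' i y))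
          rwa [sub_self] at this
        have h5 := h3.norm.pow 2
        simpa using h5
    obtain ⟨C, hC⟩ := hb R
    have h3 : Tendsto (fun n => ip (v n) (fun y => ph (r n) (z n) i y - ph r' z' i y)) atTop
        (𝓝 0) := by
      have h4 : Tendsto (fun n => √C * √(Pool.Agent.Helper38.Curl.sq (fun y => ph (r n) (z n) i y - ph r' z' i y)))
          atTop (𝓝 0) := by
        have := (h2.sqrt).const_mul (√C)
        simpa using this
      apply squeeze_zero_norm' _ h4
      filter_upwards [er, ez, hC] with n hn1 hn2 hn3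
      have hrn : 0 < r n := by linarith [hn1.1]
      rw [Real.norm_eq_abs]
      have hvn : MemLp (v n) 2 (volume.restrict (ball (0 : E) R)) := (hv n).restrict _
      refine (abs_ip_le_sqOn (C := ball (0 : E) R) measurableSet_ball hvn
        ((memLp_ph hrn (z n) i).sub hφ) ?_).trans ?_
      · apply Eventually.of_forall
        intro y hy
        show ph (r n) (z n) i y - ph r' z' i y = 0
        rw [hvanφ y hy, ph_zero hrn (by rw [hR]; linarith [hn1.2]) hy, sub_zero]
      · exact mul_le_mul_of_nonneg_right (Real.sqrt_le_sqrt hn3) (Real.sqrt_nonneg _)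
    have h5 := h3.add h1
    rw [zero_add] at h5
    rw [mol_comp hr' (locInt hV)]
    refine h5.congr' ?_
    filter_upwards [er] with n hn1
    have hrn : 0 < r n := by linarith [hn1.1]
    rw [mol_comp hrn ((hv n).locallyIntegrable (by norm_num)),
      ip_sub_right (hv n) (memLp_ph hrn (z n) i) hφ]
    ring
  have e1 : ∀ n, mol (r n) (v n) (z n) = mol (r n) (v n) (z n) 0 • bv 0 +
      mol (r n) (v n) (z n) 1 • bv 1 + mol (r n) (v n) (z n) 2 • bv 2 := fun n => eq_sum_bv _
  have e2 := eq_sum_bv (mol r' V z')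
  rw [e2, funext e1]
  exact (((key 0).smul_const _).add ((key 1).smul_const _)).add ((key 2).smul_const _)

end Pool.Agent.Helper89.Curl
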